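import Mathlib
import Pool.Agent.H999R5.Inj.Defs
import Pool.Agent.H999R5.Rk.Defs

/-!
# Gaussian sums of products of linear and quadratic forms in injective `ℓ_p` norms

Definitions and the statements (Props) of the tasks.
-/

set_option autoImplicit false

namespace Pool.Agent.H999R5.Sp

open MeasureTheory ProbabilityTheory Finset
open Pool.Agent.H999R5.Inj (form SymT injNorm gm gs qf S_FIN S_BDD)
open Pool.Agent.H999R5.Rk (ball sg sn Bd S_SN S_GR S_L1 S_POLI)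
open scoped Matrix

/-- a linear form or a quadratic form -/
def LQ {d : ℕ} (q : (Fin d → ℝ) → ℝ) : Prop :=
  (∃ v : Fin d → ℝ, ∀ x, q x = v ⬝ᵥ x) ∨
  ∃ M : Matrix (Fin d) (Fin d) ℝ, M.IsSymm ∧ ∀ x, q x = qf M x

/-- the form of the tensor is a product of at most `r` linear and quadratic forms -/
def Split {d r : ℕ} (T : (Fin r → Fin d) → ℝ) : Prop :=
  ∃ (m : ℕ) (q : Fin m → (Fin d → ℝ) → ℝ), 1 ≤ m ∧ m ≤ r ∧ (∀ j, LQ (q j)) ∧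
    ∀ x, form T x = ∏ j, q j x

/-- restricted to every line, `F` is a polynomial of degree at most `k` -/
def SP {d : ℕ} (k : ℕ) (F : (Fin d → ℝ) → ℝ) : Prop :=
  ∀ x y : Fin d → ℝ, ∃ P : Polynomial ℝ, P.natDegree ≤ k ∧
    ∀ t : ℝ, P.eval t = F (x + t • (y - x))

/-! ## statements of the tasks -/

/-- LQ1: one factor (uses `Inj.S_FIN`, `Rk.S_L1`, `Rk.S_SN`) -/
def S_LQ1 : Prop :=
  ∀ p : ℝ, 2 < p → p ≤ 4 → ∀ n d : ℕ, 1 ≤ d → ∀ (q : Fin n → (Fin d → ℝ) → ℝ)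
    (L : Fin n → ℝ), (∀ i, LQ (q i)) → (∀ i, 0 ≤ L i) →
    (∀ i, ∀ x ∈ ball d p, |q i x| ≤ L i) →
    ∫ g, sn (fun i (x : ↥(ball d p)) => q i x.1) g ∂(gm n) ≤
      41 * Real.sqrt (Real.log (Real.exp 1 * d)) * (d : ℝ) ^ (1 / 2 - 1 / p) *
        Real.sqrt (∑ i, L i ^ 2)

/-- NUM: polarisation of a product of numbers (uses `Rk.S_POLI`) -/
def S_NUM : Prop :=
  ∀ (m : ℕ) (t : Fin m → ℝ),
    ∏ j, t j = (∑ ε : Fin m → Bool, (∏ j, sg (ε j)) * (∑ j, sg (ε j) * t j) ^ m) /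
      (2 ^ m * (m.factorial : ℝ))

/-- PWR: products of `m` factors (uses LQ1, NUM, `Rk.S_GR`, `Rk.S_SN`) -/
def S_PWR : Prop :=
  ∀ p : ℝ, 2 < p → p ≤ 4 → ∀ m n d : ℕ, 1 ≤ m → 1 ≤ d →
    ∀ (q : Fin n → Fin m → (Fin d → ℝ) → ℝ) (L : Fin n → Fin m → ℝ), (∀ i j, LQ (q i j)) →
    (∀ i j, 0 ≤ L i j) → (∀ i j, ∀ x ∈ ball d p, |q i j x| ≤ L i j) →
    ∫ g, sn (fun i (x : ↥(ball d p)) => ∏ j, q i j x.1) g ∂(gm n) ≤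
      82 * ((m : ℝ) ^ (m + 1) / m.factorial) * Real.sqrt (Real.log (Real.exp 1 * d)) *
        (d : ℝ) ^ (1 / 2 - 1 / p) * Real.sqrt (∑ i, (∏ j, L i j) ^ 2)

/-- LAG: product inequality for polynomials of one variable on `[0, 1]` -/
def S_LAG : Prop :=
  ∀ (P Q : Polynomial ℝ) (k l : ℕ), P.natDegree ≤ k → Q.natDegree ≤ l → ∀ A B η : ℝ,
    0 ≤ A → 0 ≤ B → (∃ s ∈ Set.Icc (0 : ℝ) 1, A ≤ |P.eval s|) →
    (∃ s ∈ Set.Icc (0 : ℝ) 1, B ≤ |Q.eval s|) →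
    (∀ t ∈ Set.Icc (0 : ℝ) 1, |P.eval t * Q.eval t| ≤ η) →
    A * B ≤ ((k + l + 1 : ℕ) : ℝ) ^ (2 * (k + l + 1)) * η

/-- PL2: product inequality for two functions on the ball (uses LAG) -/
def S_PL2 : Prop :=
  ∀ (d : ℕ) (p : ℝ), 1 ≤ p → ∀ (k l : ℕ) (F G : (Fin d → ℝ) → ℝ), SP k F → SP l G →
    ∀ A B η : ℝ, 0 ≤ A → 0 ≤ B → (∃ x ∈ ball d p, A ≤ |F x|) → (∃ x ∈ ball d p, B ≤ |G x|) →
    (∀ x ∈ ball d p, |F x * G x| ≤ η) →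
    A * B ≤ ((k + l + 1 : ℕ) : ℝ) ^ (2 * (k + l + 1)) * η

/-- PLM: product inequality for `m` factors (uses PL2) -/
def S_PLM : Prop :=
  ∀ (m d : ℕ) (p : ℝ), 1 ≤ p → ∀ q : Fin m → (Fin d → ℝ) → ℝ, (∀ j, LQ (q j)) → ∀ B : ℝ,
    (∀ x ∈ ball d p, |∏ j, q j x| ≤ B) →
    ∃ L : Fin m → ℝ, (∀ j, 0 ≤ L j) ∧ (∀ j, ∀ x ∈ ball d p, |q j x| ≤ L j) ∧
      ∏ j, L j ≤ ((2 * m + 1 : ℕ) : ℝ) ^ (2 * m * (2 * m + 1)) * B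

/-- GRP: a varying number of factors (uses PWR, `Rk.S_SN`) -/
def S_GRP : Prop :=
  ∀ (r : ℕ) (p : ℝ), 1 ≤ r → 2 < p → p ≤ 4 → ∀ n d : ℕ, 1 ≤ d →
    ∀ (f : Fin n → (Fin d → ℝ) → ℝ) (K : Fin n → ℝ),
    (∀ i, ∃ (m : ℕ) (q : Fin m → (Fin d → ℝ) → ℝ) (L : Fin m → ℝ), 1 ≤ m ∧ m ≤ r ∧
      (∀ j, LQ (q j)) ∧ (∀ j, 0 ≤ L j) ∧ (∀ j, ∀ x ∈ ball d p, |q j x| ≤ L j) ∧
      (∀ x, f i x = ∏ j, q j x) ∧ ∏ j, L j ≤ K i) →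
    ∫ g, sn (fun i (x : ↥(ball d p)) => f i x.1) g ∂(gm n) ≤
      82 * (r : ℝ) ^ (r + 2) * Real.sqrt (Real.log (Real.exp 1 * d)) *
        (d : ℝ) ^ (1 / 2 - 1 / p) * Real.sqrt (∑ i, K i ^ 2)

/-- the final statement (uses GRP, PLM, `Inj.S_BDD`, `Rk.S_SN`) -/
def S_RES : Prop :=
  ∀ (r : ℕ) (p : ℝ), 1 ≤ r → 2 < p → p ≤ 4 → ∀ d n : ℕ, 1 ≤ d →
    ∀ T : Fin n → (Fin r → Fin d) → ℝ, (∀ i, SymT (T i)) → (∀ i, Split (T i)) →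
      Integrable (fun g => injNorm p (gs T g)) (gm n) ∧
      ∫ g, injNorm p (gs T g) ∂(gm n) ≤
        82 * (r : ℝ) ^ (r + 2) * ((2 * r + 1 : ℕ) : ℝ) ^ (2 * r * (2 * r + 1)) *
          Real.sqrt (Real.log (Real.exp 1 * d)) * (d : ℝ) ^ (1 / 2 - 1 / p) *
          Real.sqrt (∑ i, injNorm p (T i) ^ 2)

end Pool.Agent.H999R5.Sp
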