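import Pool.Agent.H999R5.SpF.Defs

set_option autoImplicit false

namespace Pool.Agent.H999R5.Sp

open MeasureTheory ProbabilityTheory Finset
open Pool.Agent.H999R5.Inj (form SymT injNorm gm gs qf S_FIN S_BDD)
open Pool.Agent.H999R5.Rk (ball sg sn Bd S_SN S_GR S_L1 S_POLI)
open scoped Matrix

theorem t_GRP (h : S_PWR) (hN : S_SN) : S_GRP := by
  intro r p hr hp2 hp4 n d hd f K hf
  choose M q L hM1 hMr hLQ hL0 hLb hfq hLK using hf
  have hK0 : ∀ i, 0 ≤ K i := fun i => (prod_nonneg fun j _ => hL0 i j).trans (hLK i)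
  have hX : Nonempty ↥(ball d p) := by
    refine ⟨⟨0, ?_⟩⟩
    show ∑ i : Fin d, |(0 : Fin d → ℝ) i| ^ p ≤ 1
    have : ∀ i : Fin d, |(0 : Fin d → ℝ) i| ^ p = 0 := by
      intro i
      rw [Pi.zero_apply, abs_zero, Real.zero_rpow (by linarith)]
    simp only [this, sum_const_zero]
    norm_num
  have hfK : ∀ i, ∀ x ∈ ball d p, |f i x| ≤ K i := by
    intro i x hx
    rw [hfq, abs_prod]
    exact (prod_le_prod (fun j _ => abs_nonneg _) fun j _ => hLb i j x hx).trans (hLK i)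
  -- the functions with exactly `m` factors
  let F : ℕ → Fin n → ↥(ball d p) → ℝ := fun m i x => if M i = m then f i x.1 else 0
  have hKs : ∀ i, K i ≤ ∑ i, K i := fun i =>
    single_le_sum (f := K) (fun i _ => hK0 i) (mem_univ i)
  have hBdF : ∀ m, Bd (F m) := by
    intro m
    refine ⟨∑ i, K i, fun i x => ?_⟩
    show |if M i = m then f i x.1 else 0| ≤ _
    split_ifs
    · exact (hfK i x.1 x.2).trans (hKs i)
    · rw [abs_zero]
      exact sum_nonneg fun i _ => hK0 i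
  have hBdf : Bd (fun i (x : ↥(ball d p)) => f i x.1) :=
    ⟨∑ i, K i, fun i x => (hfK i x.1 x.2).trans (hKs i)⟩
  obtain ⟨-, hf2, -, -, hf5⟩ := hN ↥(ball d p) hX n _ hBdf
  have hF := fun m => hN ↥(ball d p) hX n (F m) (hBdF m)
  have hle : ∀ g, sn (fun i (x : ↥(ball d p)) => f i x.1) g ≤ ∑ m ∈ Icc 1 r, sn (F m) g := by
    intro g
    refine hf2 g _ fun x => ?_
    have h1 : ∑ i, g i * f i x.1 = ∑ m ∈ Icc 1 r, ∑ i, g i * F m i x := by
      rw [sum_comm]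
      refine sum_congr rfl fun i _ => ?_
      rw [← mul_sum]
      congr 1
      show f i x.1 = ∑ m ∈ Icc 1 r, (if M i = m then f i x.1 else 0)
      rw [sum_ite_eq, if_pos (mem_Icc.2 ⟨hM1 i, hMr i⟩)]
    rw [h1]
    exact (abs_sum_le_sum_abs _ _).trans (sum_le_sum fun m _ => (hF m).1 g x)
  have hint : ∫ g, sn (fun i (x : ↥(ball d p)) => f i x.1) g ∂(gm n) ≤
      ∑ m ∈ Icc 1 r, ∫ g, sn (F m) g ∂(gm n) := by
    rw [← integral_finset_sum _ fun m _ => (hF m).2.2.2.2]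
    exact integral_mono hf5 (integrable_finset_sum _ fun m _ => (hF m).2.2.2.2) hle
  set C0 : ℝ := Real.sqrt (Real.log (Real.exp 1 * d)) * (d : ℝ) ^ (1 / 2 - 1 / p) *
    Real.sqrt (∑ i, K i ^ 2) with hC0
  have hC0n : 0 ≤ C0 := by positivity
  have hr1 : (1 : ℝ) ≤ r := by exact_mod_cast hr
  have hone : ∀ m ∈ Icc 1 r, ∫ g, sn (F m) g ∂(gm n) ≤ 82 * (r : ℝ) ^ (r + 1) * C0 := by
    intro m hm
    obtain ⟨hm1, hmr⟩ := mem_Icc.1 hm
    have hex : ∀ i, ∃ (qq : Fin m → (Fin d → ℝ) → ℝ) (LL : Fin m → ℝ), (∀ j, LQ (qq j)) ∧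
        (∀ j, 0 ≤ LL j) ∧ (∀ j, ∀ x ∈ ball d p, |qq j x| ≤ LL j) ∧
        (∀ x, ∏ j, qq j x = if M i = m then f i x else 0) ∧ ∏ j, LL j ≤ K i := by
      intro i
      by_cases hMi : M i = m
      · subst hMi
        refine ⟨q i, L i, hLQ i, hL0 i, hLb i, fun x => ?_, hLK i⟩
        rw [if_pos rfl, hfq]
      · refine ⟨fun _ _ => 0, fun _ => 0, fun j => Or.inl ⟨0, fun x => ?_⟩, fun _ => le_rfl,
          fun _ x _ => by simp, fun x => ?_, ?_⟩
        · rw [zero_dotProduct]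
        · rw [if_neg hMi, prod_const, card_univ, Fintype.card_fin, zero_pow (by omega)]
        · rw [prod_const, card_univ, Fintype.card_fin, zero_pow (by omega)]
          exact hK0 i
    choose qq LL h1 h2 h3 h4 h5 using hex
    have h6 := h p hp2 hp4 m n d hm1 hd qq LL h1 h2 h3
    have h7 : (fun i (x : ↥(ball d p)) => ∏ j, qq i j x.1) = F m := by
      funext i x
      exact h4 i x.1
    rw [h7] at h6
    refine h6.trans ?_
    have h8 : Real.sqrt (∑ i, (∏ j, LL i j) ^ 2) ≤ Real.sqrt (∑ i, K i ^ 2) := by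
      refine Real.sqrt_le_sqrt (sum_le_sum fun i _ => ?_)
      exact pow_le_pow_left₀ (prod_nonneg fun j _ => h2 i j) (h5 i) 2
    have h9 : (m : ℝ) ^ (m + 1) / m.factorial ≤ (r : ℝ) ^ (r + 1) := by
      have hf1 : (1 : ℝ) ≤ m.factorial := by exact_mod_cast m.factorial_pos
      refine (div_le_self (by positivity) hf1).trans ?_
      calc (m : ℝ) ^ (m + 1) ≤ (r : ℝ) ^ (m + 1) :=
            pow_le_pow_left₀ (Nat.cast_nonneg _) (by exact_mod_cast hmr) _
        _ ≤ (r : ℝ) ^ (r + 1) := pow_le_pow_right₀ hr1 (by omega)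
    have h10 : 0 ≤ Real.sqrt (Real.log (Real.exp 1 * d)) := Real.sqrt_nonneg _
    have h11 : 0 ≤ (d : ℝ) ^ (1 / 2 - 1 / p) := by positivity
    rw [hC0]
    calc 82 * ((m : ℝ) ^ (m + 1) / m.factorial) * Real.sqrt (Real.log (Real.exp 1 * d)) *
        (d : ℝ) ^ (1 / 2 - 1 / p) * Real.sqrt (∑ i, (∏ j, LL i j) ^ 2)
        ≤ 82 * ((r : ℝ) ^ (r + 1)) * Real.sqrt (Real.log (Real.exp 1 * d)) *
        (d : ℝ) ^ (1 / 2 - 1 / p) * Real.sqrt (∑ i, K i ^ 2) := by gcongr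
      _ = _ := by ring
  refine hint.trans ((sum_le_sum hone).trans ?_)
  rw [sum_const, Nat.card_Icc, nsmul_eq_mul, hC0]
  have : ((r + 1 - 1 : ℕ) : ℝ) = r := by simp
  rw [this, pow_succ (r : ℝ) (r + 1)]
  apply le_of_eq
  ring

end Pool.Agent.H999R5.Sp
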