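import Pool.Agent.H999R5.SpF.Defs

set_option autoImplicit false

namespace Pool.Agent.H999R5.Sp

open MeasureTheory ProbabilityTheory Finset
open Pool.Agent.H999R5.Inj (form SymT injNorm gm gs qf S_FIN S_BDD)
open Pool.Agent.H999R5.Rk (ball sg sn Bd S_SN S_GR S_L1 S_POLI)
open scoped Matrix

lemma LAG_one (P : Polynomial ℝ) (k N : ℕ) (hk : P.natDegree ≤ k) (hN : 1 ≤ N) (s0 : ℝ)
    (hs0 : s0 ∈ Set.Icc (0 : ℝ) 1) (s : Finset ℕ) (hs : s ⊆ Finset.range (N + 1))
    (hcard : s.card = k + 1) (c : ℝ) (hc : 0 ≤ c) (h : ∀ i ∈ s, |P.eval ((i : ℝ) / N)| ≤ c) :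
    |P.eval s0| ≤ (k + 1) * (N : ℝ) ^ k * c := by
  have hN0 : (0 : ℝ) < N := by exact_mod_cast hN
  set v : ℕ → ℝ := fun i => (i : ℝ) / N with hv
  have hinj : Set.InjOn v (s : Set ℕ) := by
    intro i _ j _ hij
    have h1 : (i : ℝ) / N = (j : ℝ) / N := hij
    have h2 : (i : ℝ) = j := by
      rwa [div_left_inj' hN0.ne'] at h1
    exact_mod_cast h2
  have hdeg : P.degree < (s.card : WithBot ℕ) := by
    refine lt_of_le_of_lt Polynomial.degree_le_natDegree ?_
    rw [hcard]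
    exact_mod_cast Nat.lt_succ_of_le hk
  have hP := Lagrange.eq_interpolate hinj hdeg
  have hev : P.eval s0 = ∑ i ∈ s, P.eval (v i) *
      ∏ j ∈ s.erase i, ((v i - v j)⁻¹ * (s0 - v j)) := by
    conv_lhs => rw [hP]
    rw [Lagrange.interpolate_apply, Polynomial.eval_finset_sum]
    refine Finset.sum_congr rfl fun i _ => ?_
    rw [Polynomial.eval_mul, Polynomial.eval_C, Lagrange.basis, Polynomial.eval_prod]
    congr 1
    refine Finset.prod_congr rfl fun j _ => ?_
    rw [Lagrange.basisDivisor, Polynomial.eval_mul, Polynomial.eval_C, Polynomial.eval_sub,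
      Polynomial.eval_X, Polynomial.eval_C]
  rw [hev]
  refine (Finset.abs_sum_le_sum_abs _ _).trans ?_
  have hterm : ∀ i ∈ s, |P.eval (v i) * ∏ j ∈ s.erase i, ((v i - v j)⁻¹ * (s0 - v j))| ≤
      c * (N : ℝ) ^ k := by
    intro i hi
    rw [abs_mul, Finset.abs_prod]
    refine mul_le_mul (h i hi) ?_ (Finset.prod_nonneg fun j _ => abs_nonneg _) hc
    have hfac : ∀ j ∈ s.erase i, |(v i - v j)⁻¹ * (s0 - v j)| ≤ (N : ℝ) := by
      intro j hj
      have hji : j ≠ i := (Finset.mem_erase.mp hj).1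
      have hjs : j ∈ s := (Finset.mem_erase.mp hj).2
      have hjN : j < N + 1 := Finset.mem_range.mp (hs hjs)
      have hvj0 : 0 ≤ v j := by
        show 0 ≤ (j : ℝ) / N
        positivity
      have hvj1 : v j ≤ 1 := by
        show (j : ℝ) / N ≤ 1
        rw [div_le_one hN0]
        exact_mod_cast Nat.lt_succ_iff.mp hjN
      have h1 : |s0 - v j| ≤ 1 := by
        rw [abs_le]
        constructor <;> linarith [hs0.1, hs0.2]
      have h2 : 1 / (N : ℝ) ≤ |v i - v j| := by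
        have e : v i - v j = ((i : ℤ) - (j : ℤ) : ℤ) / (N : ℝ) := by
          show (i : ℝ) / N - (j : ℝ) / N = _
          push_cast
          ring
        rw [e, abs_div, abs_of_pos hN0]
        refine div_le_div_of_nonneg_right ?_ hN0.le
        have h3 : (1 : ℤ) ≤ |(i : ℤ) - j| := by
          refine Int.one_le_abs ?_
          omega
        rw [← Int.cast_abs]
        exact_mod_cast h3
      have hpos : 0 < |v i - v j| := lt_of_lt_of_le (by positivity) h2
      rw [abs_mul, abs_inv]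
      calc |v i - v j|⁻¹ * |s0 - v j| ≤ (1 / (N : ℝ))⁻¹ * 1 := by
            refine mul_le_mul ?_ h1 (abs_nonneg _) (by positivity)
            exact inv_anti₀ (by positivity) h2
        _ = N := by rw [one_div, inv_inv, mul_one]
    refine (Finset.prod_le_prod (fun j _ => abs_nonneg _) hfac).trans ?_
    rw [Finset.prod_const, Finset.card_erase_of_mem hi, hcard, Nat.add_sub_cancel]
  refine (Finset.sum_le_sum hterm).trans (le_of_eq ?_)
  rw [Finset.sum_const, hcard, nsmul_eq_mul]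
  push_cast
  ring

lemma LAG_fin (A B η M : ℝ) (hA : 0 < A) (hB : 0 < B) (hη : 0 ≤ η) (hM : 0 ≤ M)
    (h : 1 ≤ M * Real.sqrt (η / (A * B))) : A * B ≤ M ^ 2 * η := by
  have h1 : 1 ≤ M ^ 2 * (η / (A * B)) := by
    have h2 : (1 : ℝ) ^ 2 ≤ (M * Real.sqrt (η / (A * B))) ^ 2 := pow_le_pow_left₀ zero_le_one h 2
    rw [mul_pow, Real.sq_sqrt (by positivity), one_pow] at h2
    exact h2
  have h3 : 0 < A * B := by positivity
  rw [← mul_div_assoc, le_div_iff₀ h3, one_mul] at h1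
  exact h1

lemma LAG_case (P : Polynomial ℝ) (k N : ℕ) (hk : P.natDegree ≤ k) (hkN : k ≤ N) (hN : 1 ≤ N)
    (A B η : ℝ) (hA : 0 < A) (hB : 0 < B) (hη : 0 ≤ η) (C : ℝ) (hC : 0 < C)
    (hP : ∃ s ∈ Set.Icc (0 : ℝ) 1, C ≤ |P.eval s|) (S : Finset ℕ)
    (hS : S ⊆ Finset.range (N + 1)) (hcard : k + 1 ≤ S.card)
    (h : ∀ i ∈ S, |P.eval ((i : ℝ) / N)| ≤ C * Real.sqrt (η / (A * B))) :
    A * B ≤ ((N + 1 : ℕ) : ℝ) ^ (2 * (N + 1)) * η := by
  obtain ⟨s, hs, hsc⟩ := Finset.exists_subset_card_eq hcard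
  obtain ⟨s0, hs0, hCs⟩ := hP
  have h1 := LAG_one P k N hk hN s0 hs0 s (hs.trans hS) hsc _
    (mul_nonneg hC.le (Real.sqrt_nonneg _)) (fun i hi => h i (hs hi))
  have h2 := hCs.trans h1
  have hM : ((k : ℝ) + 1) * (N : ℝ) ^ k ≤ ((N + 1 : ℕ) : ℝ) ^ (N + 1) := by
    have e1 : ((k : ℝ) + 1) ≤ ((N + 1 : ℕ) : ℝ) := by
      push_cast
      have : (k : ℝ) ≤ N := by exact_mod_cast hkN
      linarith
    have e2 : (N : ℝ) ^ k ≤ ((N + 1 : ℕ) : ℝ) ^ N := by
      calc (N : ℝ) ^ k ≤ ((N + 1 : ℕ) : ℝ) ^ k :=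
            pow_le_pow_left₀ (Nat.cast_nonneg N) (by push_cast; linarith) k
        _ ≤ ((N + 1 : ℕ) : ℝ) ^ N := pow_le_pow_right₀ (by push_cast; linarith [Nat.cast_nonneg (α := ℝ) N]) hkN
    calc ((k : ℝ) + 1) * (N : ℝ) ^ k ≤ ((N + 1 : ℕ) : ℝ) * ((N + 1 : ℕ) : ℝ) ^ N :=
          mul_le_mul e1 e2 (by positivity) (by positivity)
      _ = _ := by rw [pow_succ, mul_comm]
  have h3 : 1 ≤ ((N + 1 : ℕ) : ℝ) ^ (N + 1) * Real.sqrt (η / (A * B)) := by
    have h4 : C ≤ (((N + 1 : ℕ) : ℝ) ^ (N + 1) * Real.sqrt (η / (A * B))) * C := by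
      calc C ≤ (k + 1) * (N : ℝ) ^ k * (C * Real.sqrt (η / (A * B))) := h2
        _ ≤ ((N + 1 : ℕ) : ℝ) ^ (N + 1) * (C * Real.sqrt (η / (A * B))) :=
            mul_le_mul_of_nonneg_right hM (mul_nonneg hC.le (Real.sqrt_nonneg _))
        _ = _ := by ring
    by_contra hcon
    have := mul_lt_mul_of_pos_right (not_le.mp hcon) hC
    linarith
  have h5 := LAG_fin A B η _ hA hB hη (by positivity) h3
  rwa [← pow_mul, mul_comm (N + 1) 2] at h5

theorem t_LAG : S_LAG := by
  intro P Q k l hk hl A B η hA hB hPA hQB hpq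
  have hη : 0 ≤ η := (abs_nonneg _).trans (hpq 0 ⟨le_rfl, zero_le_one⟩)
  have hpos : 0 ≤ ((k + l + 1 : ℕ) : ℝ) ^ (2 * (k + l + 1)) * η := by positivity
  rcases hA.eq_or_lt with rfl | hA
  · rw [zero_mul]; exact hpos
  rcases hB.eq_or_lt with rfl | hB
  · rw [mul_zero]; exact hpos
  by_cases hN : 1 ≤ k + l
  · set N := k + l with hNd
    have hN0 : (0 : ℝ) < N := by exact_mod_cast hN
    set cc := Real.sqrt (η / (A * B)) with hcc
    have hcc0 : 0 ≤ cc := Real.sqrt_nonneg _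
    have hccs : cc * cc = η / (A * B) := Real.mul_self_sqrt (by positivity)
    have hor : ∀ i ∈ Finset.range (N + 1), |P.eval ((i : ℝ) / N)| ≤ A * cc ∨
        |Q.eval ((i : ℝ) / N)| ≤ B * cc := by
      intro i hi
      by_contra hcon
      rw [not_or, not_le, not_le] at hcon
      have h1 : (A * cc) * (B * cc) < |P.eval ((i : ℝ) / N)| * |Q.eval ((i : ℝ) / N)| :=
        mul_lt_mul'' hcon.1 hcon.2 (by positivity) (by positivity)
      have h2 : (A * cc) * (B * cc) = η := by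
        have : (A * cc) * (B * cc) = (A * B) * (cc * cc) := by ring
        rw [this, hccs]
        field_simp
      have h3 := hpq ((i : ℝ) / N) ⟨by positivity, by
        rw [div_le_one hN0]
        exact_mod_cast Nat.lt_succ_iff.mp (Finset.mem_range.mp hi)⟩
      rw [abs_mul] at h3
      linarith
    classical
    set S1 := (Finset.range (N + 1)).filter fun i : ℕ => |P.eval ((i : ℝ) / N)| ≤ A * cc with hS1
    set S2 := (Finset.range (N + 1)).filter fun i : ℕ => |Q.eval ((i : ℝ) / N)| ≤ B * cc with hS2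
    have hun : Finset.range (N + 1) ⊆ S1 ∪ S2 := by
      intro i hi
      rcases hor i hi with h | h
      · exact Finset.mem_union_left _ (Finset.mem_filter.mpr ⟨hi, h⟩)
      · exact Finset.mem_union_right _ (Finset.mem_filter.mpr ⟨hi, h⟩)
    have hcd : N + 1 ≤ S1.card + S2.card := by
      have h1 := Finset.card_le_card hun
      rw [Finset.card_range] at h1
      exact h1.trans (Finset.card_union_le _ _)
    rcases Nat.lt_or_ge k S1.card with h | h
    · exact LAG_case P k N hk (by omega) hN A B η hA hB hη A hA hPA S1 (Finset.filter_subset _ _) h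
        fun i hi => (Finset.mem_filter.mp hi).2
    · exact LAG_case Q l N hl (by omega) hN A B η hA hB hη B hB hQB S2 (Finset.filter_subset _ _)
        (by omega) fun i hi => (Finset.mem_filter.mp hi).2
  · have hk0 : k = 0 := by omega
    have hl0 : l = 0 := by omega
    subst hk0 hl0
    obtain ⟨s, hs, hAs⟩ := hPA
    obtain ⟨s', hs', hBs⟩ := hQB
    have e1 : P = Polynomial.C (P.coeff 0) := Polynomial.eq_C_of_natDegree_le_zero hk
    have e2 : Q = Polynomial.C (Q.coeff 0) := Polynomial.eq_C_of_natDegree_le_zero hl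
    rw [e1, Polynomial.eval_C] at hAs
    rw [e2, Polynomial.eval_C] at hBs
    have h1 := hpq 0 ⟨le_rfl, zero_le_one⟩
    rw [e1, e2, Polynomial.eval_C, Polynomial.eval_C, abs_mul] at h1
    have h2 : A * B ≤ |P.coeff 0| * |Q.coeff 0| := mul_le_mul hAs hBs hB.le (abs_nonneg _)
    have h3 : ((0 + 0 + 1 : ℕ) : ℝ) ^ (2 * (0 + 0 + 1)) * η = η := by norm_num
    rw [h3]
    exact h2.trans h1

end Pool.Agent.H999R5.Sp
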