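import Pool.Agent.H999R5.SpF.Defs

/-! NUM: polarisation of a product of numbers -/

set_option autoImplicit false

namespace Pool.Agent.H999R5.Sp

open MeasureTheory ProbabilityTheory Finset
open Pool.Agent.H999R5.Inj (form SymT injNorm gm gs qf S_FIN S_BDD)
open Pool.Agent.H999R5.Rk (ball sg sn Bd S_SN S_GR S_L1 S_POLI)
open scoped Matrix

theorem t_NUM (h : S_POLI) : S_NUM := by
  intro m t
  have hS : SymT (d := 1) (r := m) (fun _ => (1 : ℝ)) := fun _ _ => rfl
  have hkey := h m 1 (fun _ => 1) hS (fun j _ => t j)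
  have h1 : ∀ w : Fin 1 → ℝ, form (r := m) (fun _ => (1 : ℝ)) w = (w 0) ^ m := by
    intro w
    unfold form
    rw [Fintype.sum_unique]
    simp
  have h2 : Pool.Agent.H999R5.Rk.mform (r := m) (fun _ => (1 : ℝ)) (fun j (_ : Fin 1) => t j) =
      ∏ j, t j := by
    unfold Pool.Agent.H999R5.Rk.mform
    rw [Fintype.sum_unique]
    simp
  rw [h2] at hkey
  simp only [h1, Finset.sum_apply, Pi.smul_apply, smul_eq_mul] at hkey
  rw [eq_div_iff (by positivity), hkey]
  ring

end Pool.Agent.H999R5.Sp
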