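import Pool.Agent.H999R5.SpF.Defs

/-!
# Product inequality for two functions on the ball
-/

set_option autoImplicit false

namespace Pool.Agent.H999R5.Sp

open MeasureTheory ProbabilityTheory Finset
open Pool.Agent.H999R5.Inj (form SymT injNorm gm gs qf S_FIN S_BDD)
open Pool.Agent.H999R5.Rk (ball sg sn Bd S_SN S_GR S_L1 S_POLI)
open scoped Matrix

/-- the ball is convex -/
theorem PL2.ball_seg {d : ℕ} {p : ℝ} (hp : 1 ≤ p) {x y : Fin d → ℝ} (hx : x ∈ ball d p)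
    (hy : y ∈ ball d p) {t : ℝ} (ht0 : 0 ≤ t) (ht1 : t ≤ 1) : x + t • (y - x) ∈ ball d p := by
  have hx' : ∑ i, |x i| ^ p ≤ 1 := hx
  have hy' : ∑ i, |y i| ^ p ≤ 1 := hy
  show ∑ i, |(x + t • (y - x)) i| ^ p ≤ 1
  have h1 : ∀ i, |(x + t • (y - x)) i| ^ p ≤ (1 - t) * |x i| ^ p + t * |y i| ^ p := by
    intro i
    have e1 : (x + t • (y - x)) i = (1 - t) * x i + t * y i := by
      simp only [Pi.add_apply, Pi.smul_apply, Pi.sub_apply, smul_eq_mul]; ring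
    rw [e1]
    have h2 : |(1 - t) * x i + t * y i| ≤ (1 - t) * |x i| + t * |y i| := by
      refine le_trans (abs_add_le _ _) ?_
      rw [abs_mul, abs_mul, abs_of_nonneg ht0, abs_of_nonneg (by linarith : (0 : ℝ) ≤ 1 - t)]
    refine le_trans (Real.rpow_le_rpow (abs_nonneg _) h2 (by linarith)) ?_
    have h3 := (convexOn_rpow hp).2 (Set.mem_Ici.2 (abs_nonneg (x i)))
      (Set.mem_Ici.2 (abs_nonneg (y i))) (by linarith : (0 : ℝ) ≤ 1 - t) ht0 (by ring)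
    simpa only [smul_eq_mul] using h3
  calc ∑ i, |(x + t • (y - x)) i| ^ p ≤ ∑ i, ((1 - t) * |x i| ^ p + t * |y i| ^ p) :=
        Finset.sum_le_sum fun i _ => h1 i
    _ = (1 - t) * ∑ i, |x i| ^ p + t * ∑ i, |y i| ^ p := by
        rw [Finset.sum_add_distrib, ← Finset.mul_sum, ← Finset.mul_sum]
    _ ≤ (1 - t) * 1 + t * 1 := by
        refine add_le_add (mul_le_mul_of_nonneg_left hx' (by linarith))
          (mul_le_mul_of_nonneg_left hy' ht0)
    _ = 1 := by ring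

theorem t_PL2 (h : S_LAG) : S_PL2 := by
  rintro d p hp k l F G hF hG A B η hA hB ⟨x, hx, hAx⟩ ⟨y, hy, hBy⟩ hη
  obtain ⟨P, hP, hP'⟩ := hF x y
  obtain ⟨Q, hQ, hQ'⟩ := hG x y
  refine h P Q k l hP hQ A B η hA hB ⟨0, ⟨le_refl _, zero_le_one⟩, ?_⟩
    ⟨1, ⟨zero_le_one, le_refl _⟩, ?_⟩ ?_
  · rw [hP' 0, zero_smul, add_zero]
    exact hAx
  · rw [hQ' 1, one_smul, add_sub_cancel]
    exact hBy
  · rintro t ⟨ht0, ht1⟩
    rw [hP' t, hQ' t]
    exact hη _ (PL2.ball_seg hp hx hy ht0 ht1)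

end Pool.Agent.H999R5.Sp
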