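import Pool.Agent.H999R5.SpF.Defs

set_option autoImplicit false

namespace Pool.Agent.H999R5.Sp

open MeasureTheory ProbabilityTheory Finset
open Pool.Agent.H999R5.Inj (form SymT injNorm gm gs qf S_FIN S_BDD)
open Pool.Agent.H999R5.Rk (ball sg sn Bd S_SN S_GR S_L1 S_POLI)
open scoped Matrix

namespace PLMAux

theorem qf_line {d : ℕ} (M : Matrix (Fin d) (Fin d) ℝ) (x z : Fin d → ℝ) (t : ℝ) :
    qf M (x + t • z) = qf M x + t * (x ⬝ᵥ (M *ᵥ z) + z ⬝ᵥ (M *ᵥ x)) + t ^ 2 * qf M z := by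
  unfold qf
  simp only [Matrix.mulVec_add, Matrix.mulVec_smul, add_dotProduct, dotProduct_add,
    smul_dotProduct, dotProduct_smul, smul_eq_mul]
  ring

theorem LQ_SP {d : ℕ} {q : (Fin d → ℝ) → ℝ} (h : LQ q) : SP 2 q := by
  intro x y
  rcases h with ⟨v, hv⟩ | ⟨M, _, hM⟩
  · refine ⟨Polynomial.C (v ⬝ᵥ x) + Polynomial.C (v ⬝ᵥ (y - x)) * Polynomial.X, ?_, fun t => ?_⟩
    · compute_degree
      norm_num
    · rw [hv, dotProduct_add, dotProduct_smul]
      simp only [Polynomial.eval_add, Polynomial.eval_mul, Polynomial.eval_C, Polynomial.eval_X,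
        smul_eq_mul]
      ring
  · refine ⟨Polynomial.C (qf M x) +
      Polynomial.C (x ⬝ᵥ (M *ᵥ (y - x)) + (y - x) ⬝ᵥ (M *ᵥ x)) * Polynomial.X +
      Polynomial.C (qf M (y - x)) * Polynomial.X ^ 2, ?_, fun t => ?_⟩
    · compute_degree
    · rw [hM, qf_line]
      simp only [Polynomial.eval_add, Polynomial.eval_mul, Polynomial.eval_C, Polynomial.eval_X,
        Polynomial.eval_pow]
      ring

theorem SP_prod {d m : ℕ} (q : Fin m → (Fin d → ℝ) → ℝ) (h : ∀ j, LQ (q j)) :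
    SP (2 * m) (fun x => ∏ j, q j x) := by
  intro x y
  choose P hP1 hP2 using fun j => LQ_SP (h j) x y
  refine ⟨∏ j, P j, ?_, fun t => ?_⟩
  · refine (Polynomial.natDegree_prod_le _ _).trans ?_
    refine (Finset.sum_le_sum fun j _ => hP1 j).trans ?_
    simp [mul_comm]
  · rw [Polynomial.eval_prod]
    exact Finset.prod_congr rfl fun j _ => hP2 j t

theorem LQ_cont {d : ℕ} {q : (Fin d → ℝ) → ℝ} (h : LQ q) : Continuous q := by
  rcases h with ⟨v, hv⟩ | ⟨M, _, hM⟩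
  · have : q = fun x => ∑ i, v i * x i := by
      funext x
      rw [hv]
      rfl
    rw [this]
    fun_prop
  · have : q = fun x => ∑ i, x i * ∑ j, M i j * x j := by
      funext x
      rw [hM]
      rfl
    rw [this]
    fun_prop

theorem zero_mem (d : ℕ) (p : ℝ) (hp : 1 ≤ p) : (0 : Fin d → ℝ) ∈ ball d p := by
  show ∑ i, |(0 : Fin d → ℝ) i| ^ p ≤ 1
  have hp0 : p ≠ 0 := by linarith
  simp [Real.zero_rpow hp0]

theorem ball_compact (d : ℕ) (p : ℝ) (hp : 1 ≤ p) : IsCompact (ball d p) := by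
  have hp0 : 0 ≤ p := by linarith
  have hp1 : 0 < p := by linarith
  have hcl : IsClosed (ball d p) := by
    apply isClosed_le _ continuous_const
    refine continuous_finset_sum _ fun i _ => ?_
    exact (continuous_abs.comp (continuous_apply i)).rpow_const fun x => Or.inr hp0
  refine IsCompact.of_isClosed_subset (isCompact_univ_pi
    (fun _ : Fin d => isCompact_Icc (a := (-1 : ℝ)) (b := 1))) hcl ?_
  intro x hx i _
  have h1 : |x i| ^ p ≤ 1 := by
    refine le_trans ?_ hx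
    exact Finset.single_le_sum (f := fun i => |x i| ^ p)
      (fun j _ => Real.rpow_nonneg (abs_nonneg _) p) (Finset.mem_univ i)
  have h2 : |x i| ≤ 1 := by
    by_contra hcon
    push Not at hcon
    exact absurd h1 (not_le.2 (Real.one_lt_rpow hcon hp1))
  exact abs_le.1 h2

theorem exists_max (d : ℕ) (p : ℝ) (hp : 1 ≤ p) (F : (Fin d → ℝ) → ℝ) (hF : Continuous F) :
    ∃ S : ℝ, 0 ≤ S ∧ (∃ x ∈ ball d p, S ≤ |F x|) ∧ ∀ x ∈ ball d p, |F x| ≤ S := by
  obtain ⟨x, hx, hmax⟩ := (ball_compact d p hp).exists_isMaxOn ⟨0, zero_mem d p hp⟩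
    (continuous_abs.comp hF).continuousOn
  exact ⟨|F x|, abs_nonneg _, ⟨x, hx, le_rfl⟩, fun y hy => hmax hy⟩

theorem num (m : ℕ) : ((2 * m + 1 : ℕ) : ℝ) ^ (2 * m * (2 * m + 1)) *
    (((2 * m + 2 + 1 : ℕ) : ℝ) ^ (2 * (2 * m + 2 + 1))) ≤
    ((2 * (m + 1) + 1 : ℕ) : ℝ) ^ (2 * (m + 1) * (2 * (m + 1) + 1)) := by
  have h1 : ((2 * m + 1 : ℕ) : ℝ) ^ (2 * m * (2 * m + 1)) ≤
      ((2 * m + 2 + 1 : ℕ) : ℝ) ^ (2 * m * (2 * m + 3)) := by
    calc ((2 * m + 1 : ℕ) : ℝ) ^ (2 * m * (2 * m + 1))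
        ≤ ((2 * m + 2 + 1 : ℕ) : ℝ) ^ (2 * m * (2 * m + 1)) := by
          apply pow_le_pow_left₀ (Nat.cast_nonneg _)
          exact_mod_cast (by omega : 2 * m + 1 ≤ 2 * m + 2 + 1)
      _ ≤ ((2 * m + 2 + 1 : ℕ) : ℝ) ^ (2 * m * (2 * m + 3)) := by
          apply pow_le_pow_right₀
          · exact_mod_cast (by omega : 1 ≤ 2 * m + 2 + 1)
          · exact Nat.mul_le_mul_left _ (by omega)
  refine (mul_le_mul_of_nonneg_right h1 (by positivity)).trans (le_of_eq ?_)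
  rw [← pow_add]
  have e1 : 2 * m + 2 + 1 = 2 * (m + 1) + 1 := by ring
  have e2 : 2 * m * (2 * m + 3) + 2 * (2 * m + 2 + 1) = 2 * (m + 1) * (2 * (m + 1) + 1) := by ring
  rw [e2, e1]

end PLMAux

open PLMAux

theorem t_PLM (h : S_PL2) : S_PLM := by
  intro m
  induction m with
  | zero =>
    intro d p hp q _ B hB
    refine ⟨fun _ => 0, fun j => le_rfl, fun j => j.elim0, ?_⟩
    have h0 := hB 0 (zero_mem d p hp)
    simp at h0
    simpa using h0
  | succ m ih =>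
    intro d p hp q hq B hB
    have hB0 : 0 ≤ B := (abs_nonneg _).trans (hB 0 (zero_mem d p hp))
    have hFc : Continuous (fun x : Fin d → ℝ => ∏ j : Fin m, q j.castSucc x) :=
      continuous_finset_prod _ fun j _ => LQ_cont (hq j.castSucc)
    obtain ⟨S, hS0, hSx, hS⟩ := exists_max d p hp _ hFc
    obtain ⟨l, hl0, hlx, hl⟩ := exists_max d p hp _ (LQ_cont (hq (Fin.last m)))
    obtain ⟨L, hL0, hLq, hLp⟩ := ih d p hp (fun j => q j.castSucc) (fun j => hq _) S hS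
    have h2 := h d p hp (2 * m) 2 (fun x => ∏ j : Fin m, q j.castSucc x) (q (Fin.last m))
      (SP_prod _ fun j => hq _) (LQ_SP (hq _)) S l B hS0 hl0 hSx hlx (by
        intro x hx
        have h3 := hB x hx
        rw [Fin.prod_univ_castSucc] at h3
        exact h3)
    refine ⟨Fin.snoc L l, ?_, ?_, ?_⟩
    · intro j
      refine Fin.lastCases ?_ (fun i => ?_) j
      · rw [Fin.snoc_last]
        exact hl0
      · rw [Fin.snoc_castSucc]
        exact hL0 i
    · intro j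
      refine Fin.lastCases ?_ (fun i => ?_) j
      · rw [Fin.snoc_last]
        exact hl
      · rw [Fin.snoc_castSucc]
        exact hLq i
    · rw [Fin.prod_univ_castSucc, Fin.snoc_last]
      simp only [Fin.snoc_castSucc]
      calc (∏ j, L j) * l ≤ (((2 * m + 1 : ℕ) : ℝ) ^ (2 * m * (2 * m + 1)) * S) * l :=
            mul_le_mul_of_nonneg_right hLp hl0
        _ = ((2 * m + 1 : ℕ) : ℝ) ^ (2 * m * (2 * m + 1)) * (S * l) := by ring
        _ ≤ ((2 * m + 1 : ℕ) : ℝ) ^ (2 * m * (2 * m + 1)) *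
              (((2 * m + 2 + 1 : ℕ) : ℝ) ^ (2 * (2 * m + 2 + 1)) * B) :=
            mul_le_mul_of_nonneg_left h2 (by positivity)
        _ = (((2 * m + 1 : ℕ) : ℝ) ^ (2 * m * (2 * m + 1)) *
              ((2 * m + 2 + 1 : ℕ) : ℝ) ^ (2 * (2 * m + 2 + 1))) * B := by ring
        _ ≤ ((2 * (m + 1) + 1 : ℕ) : ℝ) ^ (2 * (m + 1) * (2 * (m + 1) + 1)) * B :=
            mul_le_mul_of_nonneg_right (num m) hB0

end Pool.Agent.H999R5.Sp
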