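import Pool.Agent.H999R5.SpF.Defs

set_option autoImplicit false

namespace Pool.Agent.H999R5.Sp

open MeasureTheory ProbabilityTheory Finset
open Pool.Agent.H999R5.Inj (form SymT injNorm gm gs qf S_FIN S_BDD)
open Pool.Agent.H999R5.Rk (ball sg sn Bd S_SN S_GR S_L1 S_POLI)
open scoped Matrix

theorem RES_form {d r n : ℕ} (T : Fin n → (Fin r → Fin d) → ℝ) (g : Fin n → ℝ) (x : Fin d → ℝ) :
    form (gs T g) x = ∑ i, g i * form (T i) x := by
  unfold form gs
  simp only [Finset.sum_mul, Finset.mul_sum]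
  rw [Finset.sum_comm]
  refine Finset.sum_congr rfl fun i _ => Finset.sum_congr rfl fun k _ => ?_
  ring

theorem RES_mono {m r : ℕ} (h : m ≤ r) :
    ((2 * m + 1 : ℕ) : ℝ) ^ (2 * m * (2 * m + 1)) ≤
      ((2 * r + 1 : ℕ) : ℝ) ^ (2 * r * (2 * r + 1)) := by
  have h1 : ((2 * m + 1 : ℕ) : ℝ) ≤ ((2 * r + 1 : ℕ) : ℝ) := by
    exact_mod_cast (by omega : 2 * m + 1 ≤ 2 * r + 1)
  have h2 : (1 : ℝ) ≤ ((2 * r + 1 : ℕ) : ℝ) := by
    exact_mod_cast (by omega : 1 ≤ 2 * r + 1)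
  have h3 : 2 * m * (2 * m + 1) ≤ 2 * r * (2 * r + 1) :=
    Nat.mul_le_mul (by omega) (by omega)
  exact (pow_le_pow_left₀ (Nat.cast_nonneg _) h1 _).trans (pow_le_pow_right₀ h2 h3)

theorem t_RES (hG : S_GRP) (hP : S_PLM) (hB : S_BDD) (hN : S_SN) : S_RES := by
  intro r p hr hp hp4 d n hd T hsym hsplit
  have hp0 : 0 < p := by linarith
  have hne : Nonempty (ball d p) := by
    refine ⟨⟨0, ?_⟩⟩
    show ∑ i : Fin d, |(0 : Fin d → ℝ) i| ^ p ≤ 1
    simp [Real.zero_rpow hp0.ne']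
  have hinj0 : ∀ i, 0 ≤ injNorm p (T i) := fun i => (hB d r p hp0 (T i)).2.2
  have hBd : Bd (fun i (x : ↥(ball d p)) => form (T i) x.1) := by
    refine ⟨∑ i, injNorm p (T i), fun i x => ?_⟩
    refine ((hB d r p hp0 (T i)).1 x.1 x.2).trans ?_
    exact Finset.single_le_sum (f := fun i => injNorm p (T i)) (fun i _ => hinj0 i)
      (Finset.mem_univ i)
  obtain ⟨h1, h2, _, _, h5⟩ := hN (↥(ball d p)) hne n _ hBd
  have key : ∀ g, injNorm p (gs T g) = sn (fun i (x : ↥(ball d p)) => form (T i) x.1) g := by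
    intro g
    apply le_antisymm
    · refine (hB d r p hp0 (gs T g)).2.1 _ fun x hx => ?_
      rw [RES_form]
      exact h1 g ⟨x, hx⟩
    · refine h2 g _ fun x => ?_
      have := (hB d r p hp0 (gs T g)).1 x.1 x.2
      rw [RES_form] at this
      exact this
  have hfun : (fun g => injNorm p (gs T g)) = sn (fun i (x : ↥(ball d p)) => form (T i) x.1) :=
    funext key
  rw [hfun]
  refine ⟨h5, ?_⟩
  set c : ℝ := ((2 * r + 1 : ℕ) : ℝ) ^ (2 * r * (2 * r + 1)) with hc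
  have hc0 : 0 ≤ c := by positivity
  have h6 := hG r p hr hp hp4 n d hd (fun i x => form (T i) x) (fun i => c * injNorm p (T i))
    (fun i => by
      obtain ⟨m, q, hm1, hmr, hq, hform⟩ := hsplit i
      obtain ⟨L, hL0, hLq, hLp⟩ := hP m d p (by linarith) q hq (injNorm p (T i))
        (fun x hx => by
          rw [← hform]
          exact (hB d r p hp0 (T i)).1 x hx)
      exact ⟨m, q, L, hm1, hmr, hq, hL0, hLq, hform,
        hLp.trans (mul_le_mul_of_nonneg_right (RES_mono hmr) (hinj0 i))⟩)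
  refine h6.trans (le_of_eq ?_)
  have h7 : Real.sqrt (∑ i, (c * injNorm p (T i)) ^ 2) =
      c * Real.sqrt (∑ i, injNorm p (T i) ^ 2) := by
    have h8 : ∑ i, (c * injNorm p (T i)) ^ 2 = c ^ 2 * ∑ i, injNorm p (T i) ^ 2 := by
      rw [Finset.mul_sum]
      exact Finset.sum_congr rfl fun i _ => mul_pow _ _ _
    rw [h8, Real.sqrt_mul (sq_nonneg c), Real.sqrt_sq hc0]
  rw [h7]
  ring

end Pool.Agent.H999R5.Sp
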