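import Pool.Agent.H999R5.Inj.Asm
import Pool.Agent.H999R5.RkF.Asm
import Pool.Agent.H999R5.SpF.T_LQ1
import Pool.Agent.H999R5.SpF.T_NUM
import Pool.Agent.H999R5.SpF.T_PWR
import Pool.Agent.H999R5.SpF.T_LAG
import Pool.Agent.H999R5.SpF.T_PL2
import Pool.Agent.H999R5.SpF.T_PLM
import Pool.Agent.H999R5.SpF.T_GRP
import Pool.Agent.H999R5.SpF.T_RES

/-! Assembly of the case of products of linear and quadratic forms. -/

set_option autoImplicit false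

namespace Pool.Agent.H999R5.Sp

theorem asm_FIN : Inj.S_FIN := Inj.t_FIN Inj.asm_OP Inj.asm_TWO Inj.t_SQ

theorem asm_L1 : Rk.S_L1 := Rk.t_L1 Rk.t_L2 (Rk.t_VAR Inj.t_GAU) Rk.t_SN

theorem asm_GR : Rk.S_GR := Rk.t_GR (Rk.t_RAD Rk.t_CON) Rk.t_SN Rk.t_SGN

theorem asm_PWR : S_PWR := t_PWR (t_LQ1 asm_FIN asm_L1 Rk.t_SN) (t_NUM Rk.t_POLI) asm_GR Rk.t_SN

theorem asm_RES : S_RES :=
  t_RES (t_GRP asm_PWR Rk.t_SN) (t_PLM (t_PL2 t_LAG)) Inj.t_BDD Rk.t_SN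

end Pool.Agent.H999R5.Sp
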